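import Pool.Agent.K3h88.VR.Stm2

/-! Project VR: the numerical brick HALF. -/

set_option autoImplicit false

namespace Pool.Agent.K3h33.VR

open Pool.Agent.K3h88.VR

theorem t_HALF : S_HALF := by
  intro k d m hk hd hm
  obtain ⟨h, hh⟩ : ∃ h, h = d / 2 := ⟨_, rfl⟩
  obtain ⟨X, hX⟩ : ∃ X, X = k * m := ⟨_, rfl⟩
  rw [← hh] at hm
  rw [← hh, ← hX]
  have hX10 : 10 * m ≤ X := by
    rw [hX]
    exact Nat.mul_le_mul_right m hk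
  obtain ⟨N, hN⟩ : ∃ N, N = X / 5 := ⟨_, rfl⟩
  rw [← hN]
  obtain ⟨A, hA⟩ : ∃ A, A = d - (h - 1) := ⟨_, rfl⟩
  obtain ⟨B, hB⟩ : ∃ B, B = m - (h - 1) := ⟨_, rfl⟩
  obtain ⟨D, hD⟩ : ∃ D, D = N - d := ⟨_, rfl⟩
  rw [← hA, ← hB, ← hD]
  have e1 : d ≤ N := by omega
  have e2 : d + 2 ≤ 2 * A := by omega
  have e3 : 9 * m + 19 ≤ 19 * B := by omega
  refine ⟨by omega, by omega, e1, ?_⟩
  have hND : N = d + D := by omega
  have f1 : 5 * D + 5 * d ≤ X := by omega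
  have f2 : d * (5 * D + 5 * d) ≤ d * X := Nat.mul_le_mul_left d f1
  have f3 : k * ((d + 2) * (9 * m + 19)) ≤ k * ((2 * A) * (19 * B)) :=
    Nat.mul_le_mul_left k (Nat.mul_le_mul e2 e3)
  have f4 : k * ((d + 2) * (9 * m + 19)) = 9 * ((d + 2) * X) + 19 * (k * (d + 2)) := by
    rw [hX]
    ring
  have f5 : 40 * X ≤ d * X := Nat.mul_le_mul_right X hd
  have f6 : 0 < d * d := by positivity
  have f7 : 5 * N ≤ X := by omega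
  rw [f4] at f3
  have f8 : k * ((2 * A) * (19 * B)) = 38 * (k * (A * B)) := by ring
  rw [f8] at f3
  have f9 : d * (5 * D + 5 * d) = 5 * (d * D) + 5 * (d * d) := by ring
  rw [f9] at f2
  have f10 : 9 * ((d + 2) * X) = 9 * (d * X) + 18 * X := by ring
  rw [f10] at f3
  obtain ⟨a, ha⟩ : ∃ a, a = d * D := ⟨_, rfl⟩
  obtain ⟨b, hb⟩ : ∃ b, b = d * d := ⟨_, rfl⟩
  obtain ⟨c, hc⟩ : ∃ c, c = d * X := ⟨_, rfl⟩
  obtain ⟨e, he⟩ : ∃ e, e = k * (A * B) := ⟨_, rfl⟩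
  obtain ⟨g, hg⟩ : ∃ g, g = k * (d + 2) := ⟨_, rfl⟩
  rw [← ha, ← he]
  rw [← hc, ← hg, ← he] at f3
  rw [← ha, ← hb, ← hc] at f2
  rw [← hc] at f5
  rw [← hb] at f6
  omega

end Pool.Agent.K3h33.VR
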